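import Pool.Agent.MWA.Stmts

/-!
# Row W2R of block MWA: rigidity of gathered two letter words
-/

namespace Pool.Agent.MWA.H37

open Pool.Agent.Helper14_MV Pool.Agent.Helper2_MV Pool.Agent.MVO Pool.Agent.MWL Pool.Agent.MWS
open Pool.Agent.MWA

theorem mem_bl {p q c : ℕ} {e : Bool} (h : c ∈ bl p q e) :
    (c = 0 ∧ p ≠ 0) ∨ (c = 1 ∧ q ≠ 0) := by
  unfold bl at h
  cases e
  · simp only [Bool.false_eq_true, if_false, List.mem_append, List.mem_replicate] at h
    rcases h with ⟨h1, h2⟩ | ⟨h1, h2⟩
    · exact Or.inl ⟨h2, h1⟩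
    · exact Or.inr ⟨h2, h1⟩
  · simp only [if_true, List.mem_append, List.mem_replicate] at h
    rcases h with ⟨h1, h2⟩ | ⟨h1, h2⟩
    · exact Or.inr ⟨h2, h1⟩
    · exact Or.inl ⟨h2, h1⟩

theorem count_bl (p q c : ℕ) (e : Bool) :
    (bl p q e).count c = (if c = 0 then p else 0) + (if c = 1 then q else 0) := by
  unfold bl
  cases e
  · simp only [Bool.false_eq_true, if_false, List.count_append, List.count_replicate, beq_iff_eq]
    congr 1
    · by_cases h : c = 0
      · subst h; simp
      · rw [if_neg h, if_neg (fun h' => h h'.symm)]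
    · by_cases h : c = 1
      · subst h; simp
      · rw [if_neg h, if_neg (fun h' => h h'.symm)]
  · simp only [if_true, List.count_append, List.count_replicate, beq_iff_eq]
    rw [Nat.add_comm]
    congr 1
    · by_cases h : c = 0
      · subst h; simp
      · rw [if_neg h, if_neg (fun h' => h h'.symm)]
    · by_cases h : c = 1
      · subst h; simp
      · rw [if_neg h, if_neg (fun h' => h h'.symm)]

theorem deg_pos {k : ℕ} {a : ℕ → ℕ} {j : ℕ} (hj : j ≤ k) (h : a j ≠ 0) : deg k a ≠ 0 := by
  intro h0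
  unfold deg at h0
  rw [Finset.sum_eq_zero_iff] at h0
  exact h (h0 j (Finset.mem_range.2 (by omega)))

theorem okB_bl {k : ℕ} {a b : ℕ → ℕ} {e : ℕ → Bool} (ha : deg k a ≠ 1) (hb : deg k b ≠ 1) :
    OkB k (fun j => bl (a j) (b j) (e j)) := by
  constructor
  · intro j hj c hc
    rcases mem_bl hc with ⟨rfl, _⟩ | ⟨rfl, _⟩
    · intro h; omega
    · intro h; omega
  · intro j hj c hc
    rcases mem_bl hc with ⟨rfl, h⟩ | ⟨rfl, h⟩
    · have h1 : (fun j => (bl (a j) (b j) (e j)).count 0) = a := by
        funext j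
        rw [count_bl]
        simp
      rw [h1]
      have h2 := deg_pos hj h
      omega
    · have h1 : (fun j => (bl (a j) (b j) (e j)).count 1) = b := by
        funext j
        rw [count_bl]
        simp
      rw [h1]
      have h2 := deg_pos hj h
      omega

theorem two01_bl {k : ℕ} {a b : ℕ → ℕ} {e : ℕ → Bool} :
    Two01 k (fun j => bl (a j) (b j) (e j)) := by
  intro j _ c hc
  rcases mem_bl hc with ⟨h, _⟩ | ⟨h, _⟩
  · exact Or.inl h
  · exact Or.inr h

theorem w2r (h : TnfStmt) : W2rStmt := by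
  intro β hβ k a b e e' ha hb he
  apply h β hβ k (fun j => bl (a j) (b j) (e j)) (fun j => bl (a j) (b j) (e' j))
    (okB_bl ha hb) (okB_bl ha hb) two01_bl two01_bl
  · intro j _ c
    show (bl (a j) (b j) (e j)).count c = (bl (a j) (b j) (e' j)).count c
    rw [count_bl, count_bl]
  · intro i h0 h1
    have h2 : ty (fun j => bl (a j) (b j) (e j)) 0 = a := by
      funext j
      show (bl (a j) (b j) (e j)).count 0 = a j
      rw [count_bl]
      simp
    have h3 : ty (fun j => bl (a j) (b j) (e j)) 1 = b := by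
      funext j
      show (bl (a j) (b j) (e j)).count 1 = b j
      rw [count_bl]
      simp
    rw [h2] at h0
    rw [h3] at h1
    show (bl (a i) (b i) (e i)).getLast? = (bl (a i) (b i) (e' i)).getLast?
    rw [he i h0 h1]

end Pool.Agent.MWA.H37
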