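import Pool.Agent.MWA.Stmts

/-!
# Row BTA of block MWA: first facts on exchanges
-/

namespace Pool.Agent.MWA.H37

open Pool.Agent.Helper14_MV Pool.Agent.Helper2_MV Pool.Agent.MVO Pool.Agent.MWL Pool.Agent.MWS
open Pool.Agent.MWA

theorem bta (h1 : MVO.FaaStmt) (h2 : W2rStmt) : BtaStmt := by
  intro θ hθ
  refine ⟨?_, ?_, ?_⟩
  · intro k a b i ha hb hn e
    apply h2 θ hθ.cl k a b e (flp e i) ha hb
    intro j h0 h3
    have hji : j ≠ i := by
      rintro rfl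
      exact hn ⟨h0, h3⟩
    unfold flp
    rw [if_neg hji]
  · exact (h1 θ hθ.cl).2.2.2.2.1
  · exact (h1 θ hθ.cl).2.2.2.2.2 hθ.r0

end Pool.Agent.MWA.H37
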